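import Pool.Agent.TH322.BC.Main

/-!
# Linear relations for an elliptic curve over all number fields, on the edge line

`K` is any number field, for instance `ℚ`, and `E` any elliptic curve over `K`.  For a number field
`F ⊇ K` and `D ∈ F^*` let `E_D / F` be the twist of `E` over `F` by the quadratic character of
`F(√D)/F`.  The analytic continuation of `L(E_D / F, s)` is not known in general, not even for `K = ℚ` and
`D = 1`.  The theorem is about the zeros and the poles of all these functions on the line
`Re s = 3/2`, the edge of the half plane of absolute convergence.  Nothing is assumed about
modularity.  The definitions are in `Pool.Agent.TH322.BC.Defs` and `Pool.Agent.W353.EF.Defs`.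
-/

set_option autoImplicit false

namespace Pool.Agent.Results.MP_7ed9c3_nt.BaseChangeRelations

open Pool.Agent.TH322.BC.Edge

/-- **Linear relations between the orders over all number fields, at all points of the edge.**  Let `E`
be an elliptic curve over a number field `K` and `τ` real; `κ = 2/π` if `τ ≠ 0` and `κ = 1` if `τ = 0`.
1. For finitely many twists `E_D` over number fields `F ⊇ K` whose `L`-functions have continuations to
neighbourhoods of `3/2 + iτ`, of orders `m` there, and real `c`: `|∑ c m| ≤ 2κ · mean |∑ c χ|`, where `χ` is
the character of `Gal(K̄/K)` induced from the quadratic character of `F(√D)/F`.
2. For every finite extension `F/K` the orders `m`, `m'` of `L(E/K, s)` and `L(E/F, s)` at `3/2 + iτ`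
satisfy `|m' - m| ≤ 4κδ`, where `δ` is the proportion of the permutations without fixed point in the
Galois group of the normal closure, acting on the embeddings of `F`; and for every twist `E_D / F` for
which all changes of the signs of the square roots of the conjugates of `D` occur, the order is at most
`2κ(1 - 3δ/4)` in absolute value.
The inequalities hold for `limsup` of the `log |L(3/2 + iτ + ε)| / log(1/ε)` without a continuation. -/
theorem result (K : Type) [Field K] [NumberField K] (E : WeierstrassCurve K) (hE : E.IsElliptic) :
    Relations E ∧ AllExtensions E :=
  main_general K E hE

end Pool.Agent.Results.MP_7ed9c3_nt.BaseChangeRelations
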