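import Pool.Agent.TH820.LG.Layer

/-!
# Elliptic curves over layers of odd degree

Let `E` be an elliptic curve over the number field `K` and let `M ⊆ F` be finite Galois extensions of `K`
with `[F : M]` odd; `M` and its Galois group over `K` are arbitrary.  The theorem says which of the
functions `L(E ⊗ χ, s)`, `χ` an irreducible representation of `Gal(F/K)`, can have a zero or a pole at the
real point `3/2` of the edge of the half-plane of absolute convergence, and compares `L(E/F', s)` for the
fields `F'` with `K ⊆ F' ⊆ F`.  The definitions are in `Pool.Agent.TH820.LG.LayerDefs`,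
`Pool.Agent.TH820.LG.ECDefs`, `Pool.Agent.TH526.DS.CamDefs` and
`Pool.Agent.Results.MP_bf61d2_nt.NonabelianTwists`.
-/

set_option autoImplicit false

namespace Pool.Agent.Results.MP_7ed9c3_nt.OddLayers

open NumberField Pool.Agent.TH820.LG.EC

/-- **Elliptic curves over layers of odd degree.**  Let `K` be a number field, `E` the elliptic curve over
`K` given by the integral equation `W`, and `M ⊆ F` finite Galois extensions of `K` such that `[F : M]` is
odd.  Suppose that `L(E ⊗ χ, s)` has a meromorphic continuation to a neighbourhood of `3/2` for all
irreducible representations `χ` of `Gal(F/K)`.  Then there is a Galois extension `C/K` with `M ⊆ C ⊆ F`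
and `C/M` cyclic, such that
* no function `L(E ⊗ χ, s)`, `χ` an irreducible representation of `Gal(F/K)` not trivial on `Gal(F/C)`,
  has a zero or a pole at `3/2`;
* for any field `F'` with `K ⊆ F' ⊆ F` the difference between `log |L(3/2 + ε)| / log(1/ε)` for
  `L(E/F', s)` and for `L(E/F' ∩ C, s)` tends to `0` as `ε → 0+`, and the orders of these functions at
  `3/2`, if they exist, are equal. -/
theorem result (K : Type) [Field K] [NumberField K] (W : WeierstrassCurve (𝓞 K)) (hΔ : W.Δ ≠ 0) :
    OddLayers W :=
  oddLayers W hΔ

end Pool.Agent.Results.MP_7ed9c3_nt.OddLayers
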