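import Pool.Agent.TH553.RS.Fin

/-!
# The edge of the L-series of the base changes and twists of an elliptic curve over `ℚ`

`E` is an elliptic curve over `ℚ`, given by a Weierstrass equation over `ℤ`, and `f` is its newform.  For
a number field `F` and `d ∈ F^*` let `E_d / F` be the twist of `E` by the quadratic character `χ_d` of
`F(√d)/F`.  (Up to isomorphism these are all elliptic curves over number fields with a rational
`j`-invariant different from `0` and `1728`.)  The continuation of `L(E_d / F, s)` is not known in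
general.  The theorem is about the zeros and poles of local meromorphic continuations on the edge
`Re s = 3/2` of absolute convergence, for all `F` and `d` together.

Let `ρ(F, d)` be the representation of `Gal(ℚ̄/ℚ)` induced from `χ_d`.  The theorem of Rankin and Selberg
for `f` gives the exact mean value `1` of the squares `a_p² / p`, so that the vector `a_p / √p` has
length one, like an irreducible character.  By the equality case of the inequality of Cauchy and
Schwarz an L-series attached to an irreducible representation of dimension at least three (more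
generally to a virtual character of norm one, for instance `ρ(F, 1) - 1` for a doubly transitive `F`)
has no zero and no pole on the edge.
-/

set_option autoImplicit false
open Classical

namespace Pool.Agent.Results.MP_7ed9c3_nt.RankinSelbergEdge

open NumberField IsDedekindDomain Filter Topology CongruenceSubgroup UpperHalfPlane
open scoped TensorProduct MatrixGroups

/-! ### The curve over `ℚ`, its newform and the law of Sato and Tate -/

/-- `a_p = p + 1 - #E(𝔽_p)`; there is one point at infinity. -/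
noncomputable def frobTrace (W : WeierstrassCurve ℤ) (p : ℕ) : ℤ :=
  (p : ℤ) + 1 - ((Nat.card {P : ZMod p × ZMod p //
    P.2 ^ 2 + (W.a₁ : ZMod p) * P.1 * P.2 + (W.a₃ : ZMod p) * P.2 =
      P.1 ^ 3 + (W.a₂ : ZMod p) * P.1 ^ 2 + (W.a₄ : ZMod p) * P.1 + (W.a₆ : ZMod p)} : ℤ) + 1)

/-- The `n`-th Fourier coefficient of `f`. -/
noncomputable def coef {N : ℕ} (f : CuspForm (Gamma0 N : Subgroup (GL (Fin 2) ℝ)) 2) (n : ℕ) : ℂ :=
  (qExpansion 1 f).coeff n

/-- `f ∈ S_2(Γ₀(N))` is the newform of the elliptic curve `E : W` of conductor `N`: the Fourier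
coefficients `c(n)` of `f` are real with `c(1) = 1`, they satisfy the Hecke relations
`c(mn) = c(m) c(n)` for coprime `m`, `n` and `c(p^(j+2)) = c(p) c(p^(j+1)) - p c(p^j)` (without the last
term if `p ∣ N`), `c(p) = a_p` for all primes `p` that do not divide the discriminant of `W`,
`|c(p)| ≤ 2 √p` for all `p ∤ N` (Hasse) and `c(p) = 0, 1, -1` for `p ∣ N`. -/
structure IsNewformOf (W : WeierstrassCurve ℤ) (N : ℕ)
    (f : CuspForm (Gamma0 N : Subgroup (GL (Fin 2) ℝ)) 2) : Prop where
  one : coef f 1 = 1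
  real : ∀ n, (coef f n).im = 0
  mul : ∀ m n : ℕ, Nat.Coprime m n → coef f (m * n) = coef f m * coef f n
  pow : ∀ p j : ℕ, p.Prime → coef f (p ^ (j + 2)) = coef f p * coef f (p ^ (j + 1)) -
      (if p ∣ N then 0 else (p : ℂ) * coef f (p ^ j))
  points : ∀ p : ℕ, p.Prime → ¬ (p : ℤ) ∣ W.Δ → coef f p = (frobTrace W p : ℂ)
  good : ∀ p : ℕ, p.Prime → ¬ p ∣ N → ‖coef f p‖ ≤ 2 * Real.sqrt p
  bad : ∀ p : ℕ, p.Prime → p ∣ N → coef f p = 0 ∨ coef f p = 1 ∨ coef f p = -1

/-- The law of Sato and Tate for `E : W`: the numbers `a_p / √p` have the distribution of the trace of a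
random element of `SU(2)`. -/
def SatoTate (W : WeierstrassCurve ℤ) : Prop :=
  ∀ g : ℝ → ℝ, Continuous g → Tendsto (fun n : ℕ =>
    (∑ p ∈ (Finset.range (n + 1)).filter Nat.Prime, g (frobTrace W p / Real.sqrt p)) /
      (Nat.primeCounting n : ℝ)) atTop
    (𝓝 (2 / Real.pi * ∫ θ in (0 : ℝ)..Real.pi, g (2 * Real.cos θ) * Real.sin θ ^ 2))

/-! ### The twists over number fields and their `L`-series -/

/-- The quadratic twist `y² = x³ - 27 d² c₄(E) x - 54 d³ c₆(E)` of `E` by `d`. -/
noncomputable def twist {F : Type} [Field F] (E : WeierstrassCurve F) (d : F) :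
    WeierstrassCurve F where
  a₁ := 0
  a₂ := 0
  a₃ := 0
  a₄ := -27 * d ^ 2 * E.c₄
  a₆ := -54 * d ^ 3 * E.c₆

/-- `V v` is, for every `v`, an integral model of `E` with discriminant minimal at `v`. -/
def MinimalModels {F : Type} [Field F] [NumberField F] (E : WeierstrassCurve F)
    (V : HeightOneSpectrum (𝓞 F) → WeierstrassCurve (𝓞 F)) : Prop :=
  ∀ v : HeightOneSpectrum (𝓞 F),
    (∃ C : WeierstrassCurve.VariableChange F, C • E = (V v).map (algebraMap (𝓞 F) F)) ∧
    ∀ W : WeierstrassCurve (𝓞 F),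
      (∃ C : WeierstrassCurve.VariableChange F, C • E = W.map (algebraMap (𝓞 F) F)) →
        ∀ n : ℕ, (V v).Δ ∈ v.asIdeal ^ n → W.Δ ∈ v.asIdeal ^ n

/-- The Euler product of the problem, computed from the reductions of the models `V v`. -/
noncomputable def LSeries {F : Type} [Field F] [NumberField F]
    (V : HeightOneSpectrum (𝓞 F) → WeierstrassCurve (𝓞 F)) (s : ℂ) : ℂ :=
  ∏' v : HeightOneSpectrum (𝓞 F),
    (1 - ((((Ideal.absNorm v.asIdeal : ℕ) : ℤ) -
          ((Nat.card {p : (𝓞 F ⧸ v.asIdeal) × (𝓞 F ⧸ v.asIdeal) //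
            p.2 ^ 2 + Ideal.Quotient.mk v.asIdeal (V v).a₁ * p.1 * p.2
              + Ideal.Quotient.mk v.asIdeal (V v).a₃ * p.2
            = p.1 ^ 3 + Ideal.Quotient.mk v.asIdeal (V v).a₂ * p.1 ^ 2
              + Ideal.Quotient.mk v.asIdeal (V v).a₄ * p.1
              + Ideal.Quotient.mk v.asIdeal (V v).a₆} : ℕ) : ℤ) : ℤ) : ℂ)
          * ((Ideal.absNorm v.asIdeal : ℕ) : ℂ) ^ (-s)
      + (if (V v).Δ ∈ v.asIdeal then (0 : ℂ) else 1)
          * ((Ideal.absNorm v.asIdeal : ℕ) : ℂ) ^ (1 - 2 * s))⁻¹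

/-- A twist `E_d` over the number field `F`, with its minimal models. -/
structure TwistOver (W : WeierstrassCurve ℤ) (F : Type) [Field F] [NumberField F] where
  d : 𝓞 F
  d_ne_zero : d ≠ 0
  V : HeightOneSpectrum (𝓞 F) → WeierstrassCurve (𝓞 F)
  minimal : MinimalModels (twist (W.map (algebraMap ℤ F)) (d : F)) V

section
variable {W : WeierstrassCurve ℤ} {F F' : Type} [Field F] [NumberField F] [Field F'] [NumberField F']

/-- `log |L(E_d / F, 3/2 + iτ + ε)| / log(1/ε)`. -/
noncomputable def TwistOver.size (X : TwistOver W F) (τ ε : ℝ) : ℝ :=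
  Real.log ‖LSeries X.V (3 / 2 + τ * Complex.I + ε)‖ / Real.log (1 / ε)

/-- `L(E_d / F, s)` has a meromorphic continuation to a neighbourhood of `3/2 + iτ`, of order `m` at
`3/2 + iτ`. -/
def TwistOver.HasOrder (X : TwistOver W F) (τ : ℝ) (m : ℤ) : Prop :=
  ∃ Λ : ℂ → ℂ, MeromorphicAt Λ (3 / 2 + τ * Complex.I) ∧
    (∀ᶠ s in 𝓝 ((3 / 2 : ℂ) + τ * Complex.I), (3 / 2 : ℝ) < s.re → Λ s = LSeries X.V s) ∧
    meromorphicOrderAt Λ (3 / 2 + τ * Complex.I) = m

/-- `⟨X, Y⟩`, the intertwining number of the representations `ρ(F, d)` and `ρ(F', d')`: the number of the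
simple factors of `F ⊗ F'` in which `d ⊗ d'` is a square. -/
noncomputable def pair (X : TwistOver W F) (Y : TwistOver W F') : ℕ :=
  Nat.card {m : MaximalSpectrum (F ⊗[ℚ] F') //
    IsSquare (Ideal.Quotient.mk m.asIdeal ((X.d : F) ⊗ₜ[ℚ] (Y.d : F')))}

/-- The pairing of two twists with heights: `⟨X, Y⟩` if both heights are zero, `⟨X, Y⟩ / 2` if the heights
are equal or opposite and different from zero, `0` otherwise. -/
noncomputable def gram (X : TwistOver W F) (τ : ℝ) (Y : TwistOver W F') (σ : ℝ) : ℝ :=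
  1 / 2 * (if τ = σ then (pair X Y : ℝ) else 0) + 1 / 2 * (if τ = -σ then (pair X Y : ℝ) else 0)

end

/-- **The edge `Re s = 3/2` for all base changes and quadratic twists of an elliptic curve over `ℚ`.**
Let `E` be an elliptic curve over `ℚ` and `f` its newform.

1. (Nothing is assumed about continuation.)  Let `X_k`, `k ∈ S`, be finitely many twists `E_{d_k}` over
number fields `F_k` and `τ_k` real numbers.  The `L`-series are not zero at `3/2 + iτ_k + ε` for small
`ε > 0`, and `(∑ c_k x_k(ε))² ≤ ∑ c_k c_l ⟨(X_k, τ_k), (X_l, τ_l)⟩ + η` for all sufficiently small `ε > 0`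
and all real `|c_k| ≤ C`, where `x_k(ε) = log |L(E_{d_k} / F_k, 3/2 + iτ_k + ε)| / log(1/ε)`.
If the `L`-series have meromorphic continuations to neighbourhoods of the points `3/2 + iτ_k`, with
orders `m_k`, then `(∑ c_k m_k)² ≤ ∑ c_k c_l ⟨(X_k, τ_k), (X_l, τ_l)⟩` for all real `c_k`.

2. Suppose that all heights are equal, `τ_k = τ`, that the `L`-series have meromorphic continuations to
neighbourhoods of `3/2 + iτ`, with orders `m_k`, and let `c_k` be integers for which the virtual
character `∑ c_k ρ(F_k, d_k)` has norm one: `∑ c_k c_l ⟨X_k, X_l⟩ = 1`.  Then `|∑ c_k m_k| ≤ 1`, and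
`∑ c_k m_k = 0` in each of the following cases: `τ ≠ 0`; the degree `∑ c_k [F_k : ℚ]` of the character has
absolute value at least `3`; the law of Sato and Tate holds for `E`.  In general there is at most one
exception (up to sign) at `τ = 0`: if `∑ c_k m_k ≠ 0` and `∑ c'_k m_k ≠ 0` for two such characters then
their scalar product is `± 1`, that is, they are equal up to sign.

3. Let `[F : ℚ] ≥ 3` and let `ρ(F, d)` be irreducible, `⟨X, X⟩ = 1`.  Then every meromorphic continuation
of `L(E_d / F, s)` to a neighbourhood of a point of the line `Re s = 3/2` has order `0` there: it has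
neither a zero nor a pole.

4. Let `[F : ℚ] ≥ 4` and let `F` be doubly transitive, that is, `F ⊗ F` is a product of two fields (for
instance all `F` with symmetric or alternating Galois group).  Then every meromorphic continuation of
`L(E / F, s)` to a neighbourhood of a point of the line `Re s = 3/2` has the same order there as
`L(E / ℚ, s)` (for which the order is known to be `0`). -/
theorem result (W : WeierstrassCurve ℤ) (hΔ : W.Δ ≠ 0) (N : ℕ) [NeZero N]
    (f : CuspForm (Gamma0 N : Subgroup (GL (Fin 2) ℝ)) 2) (hf : IsNewformOf W N f) :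
    (∀ (κ : Type) (S : Finset κ) (F : κ → Type) [∀ k, Field (F k)] [∀ k, NumberField (F k)]
      (X : ∀ k, TwistOver W (F k)) (τ : κ → ℝ),
      (∀ k ∈ S, ∀ᶠ ε : ℝ in 𝓝[>] 0, LSeries (X k).V (3 / 2 + τ k * Complex.I + ε) ≠ 0) ∧
      (∀ C η : ℝ, 0 < η → ∀ᶠ ε : ℝ in 𝓝[>] 0, ∀ c : κ → ℝ, (∀ k ∈ S, |c k| ≤ C) →
        (∑ k ∈ S, c k * (X k).size (τ k) ε) ^ 2 ≤
          (∑ k ∈ S, ∑ l ∈ S, c k * c l * gram (X k) (τ k) (X l) (τ l)) + η) ∧
      (∀ m : κ → ℤ, (∀ k ∈ S, (X k).HasOrder (τ k) (m k)) → ∀ c : κ → ℝ,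
        (∑ k ∈ S, c k * m k) ^ 2 ≤
          ∑ k ∈ S, ∑ l ∈ S, c k * c l * gram (X k) (τ k) (X l) (τ l))) ∧
    (∀ (κ : Type) (S : Finset κ) (F : κ → Type) [∀ k, Field (F k)] [∀ k, NumberField (F k)]
      (X : ∀ k, TwistOver W (F k)) (τ : ℝ) (m c : κ → ℤ), (∀ k ∈ S, (X k).HasOrder τ (m k)) →
      ∑ k ∈ S, ∑ l ∈ S, c k * c l * (pair (X k) (X l) : ℤ) = 1 →
      |∑ k ∈ S, c k * m k| ≤ 1 ∧
      (τ ≠ 0 ∨ 3 ≤ |∑ k ∈ S, c k * (Module.finrank ℚ (F k) : ℤ)| ∨ SatoTate W →
        ∑ k ∈ S, c k * m k = 0) ∧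
      ∀ c' : κ → ℤ, ∑ k ∈ S, ∑ l ∈ S, c' k * c' l * (pair (X k) (X l) : ℤ) = 1 →
        ∑ k ∈ S, c k * m k ≠ 0 → ∑ k ∈ S, c' k * m k ≠ 0 →
          |∑ k ∈ S, ∑ l ∈ S, c k * c' l * (pair (X k) (X l) : ℤ)| = 1) ∧
    (∀ (F : Type) [Field F] [NumberField F] (X : TwistOver W F), 3 ≤ Module.finrank ℚ F →
      pair X X = 1 → ∀ (τ : ℝ) (m : ℤ), X.HasOrder τ m → m = 0) ∧
    (∀ (F : Type) [Field F] [NumberField F], 4 ≤ Module.finrank ℚ F →
      Nat.card (MaximalSpectrum (F ⊗[ℚ] F)) = 2 →
      ∀ (X : TwistOver W F) (Y : TwistOver W ℚ), X.d = 1 → Y.d = 1 →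
        ∀ (τ : ℝ) (m m' : ℤ), X.HasOrder τ m → Y.HasOrder τ m' → m = m') := by
  have H : Pool.Agent.TH553.RS.Hyp W f :=
    { disc := hΔ
      hecke :=
        { one := hf.one
          real := hf.real
          mul := hf.mul
          pow := hf.pow
          good := hf.good
          bad := fun p hp h => by
            rcases hf.bad p hp h with h1 | h1 | h1
            · have h2 : ‖coef f p‖ ≤ 1 := by rw [h1]; simp
              exact h2
            · have h2 : ‖coef f p‖ ≤ 1 := by rw [h1]; simp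
              exact h2
            · have h2 : ‖coef f p‖ ≤ 1 := by rw [h1]; simp
              exact h2 }
      points := hf.points }
  -- sizes
  have hsz : ∀ (F : Type) [Field F] [NumberField F] (X : TwistOver W F) (τ : ℝ),
      (∀ᶠ ε : ℝ in 𝓝[>] 0, LSeries X.V (3 / 2 + τ * Complex.I + ε) ≠ 0) ∧
      Tendsto (fun ε => Pool.Agent.TH553.RS.qt (Pool.Agent.TH553.RS.NH ℚ)
        (fun x => Pool.Agent.TH553.RS.tq (Pool.Agent.TH553.RS.cP W) (Pool.Agent.TH553.RS.cQ W) x *
          Pool.Agent.TH553.RS.uq ℚ X.d τ x) ε - X.size τ ε) (𝓝[>] 0) (𝓝 0) := by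
    intro F _ _ X τ
    exact Pool.Agent.TH553.RS.size_F W hΔ X.d_ne_zero X.V X.minimal τ
  have hlim : ∀ (F : Type) [Field F] [NumberField F] (X : TwistOver W F) (τ : ℝ) (m : ℤ),
      X.HasOrder τ m → Tendsto (X.size τ) (𝓝[>] 0) (𝓝 (-(m : ℝ))) := by
    rintro F _ _ X τ m ⟨Λ, h1, h2, hm⟩
    exact Pool.Agent.W353.NF.lim_order (L := LSeries X.V) (hsz F X τ).1 h1 h2 hm
  -- part 2
  have h2 : ∀ (κ : Type) (S : Finset κ) (F : κ → Type) [∀ k, Field (F k)] [∀ k, NumberField (F k)]
      (X : ∀ k, TwistOver W (F k)) (τ : ℝ) (m c : κ → ℤ), (∀ k ∈ S, (X k).HasOrder τ (m k)) →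
      ∑ k ∈ S, ∑ l ∈ S, c k * c l * (pair (X k) (X l) : ℤ) = 1 →
      |∑ k ∈ S, c k * m k| ≤ 1 ∧
      (τ ≠ 0 ∨ 3 ≤ |∑ k ∈ S, c k * (Module.finrank ℚ (F k) : ℤ)| ∨ SatoTate W →
        ∑ k ∈ S, c k * m k = 0) := by
    intro κ S F _ _ X τ m c hm hN
    exact Pool.Agent.TH553.RS.norm_one H (fun k => (X k).d) (fun k _ => (X k).d_ne_zero) τ
      (fun k => (X k).size τ) (fun k _ => (hsz (F k) (X k) τ).2) m c
      (fun k hk => hlim (F k) (X k) τ (m k) (hm k hk)) hN
  refine ⟨fun κ S F _ _ X τ => ?_, fun κ S F _ _ X τ m c hm hN => ?_, ?_, ?_⟩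
  · have D := Pool.Agent.TH553.RS.dat (S := S) H (fun k => (X k).d) (fun k _ => (X k).d_ne_zero) τ
      (fun k => (X k).size (τ k)) (fun k _ => (hsz (F k) (X k) (τ k)).2)
    exact ⟨fun k _ => (hsz (F k) (X k) (τ k)).1, fun C η hη => D.unif C hη,
      fun m hm c => D.gram_lim (m := fun k => (m k : ℝ))
        (fun k hk => hlim (F k) (X k) (τ k) (m k) (hm k hk)) c⟩
  · refine ⟨(h2 κ S F X τ m c hm hN).1, (h2 κ S F X τ m c hm hN).2, fun c' hN' hc hc' => ?_⟩
    have hτ : τ = 0 := by
      by_contra h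
      exact hc ((h2 κ S F X τ m c hm hN).2 (Or.inl h))
    subst hτ
    exact Pool.Agent.TH553.RS.unique_exc H (fun k => (X k).d) (fun k _ => (X k).d_ne_zero)
      (fun k => (X k).size 0) (fun k _ => (hsz (F k) (X k) 0).2) m c c'
      (fun k hk => hlim (F k) (X k) 0 (m k) (hm k hk)) hN hN' hc hc'
  · intro F _ _ X hF hX τ m hm
    have h := (h2 Unit {()} (fun _ => F) (fun _ => X) τ (fun _ => m) (fun _ => 1)
      (fun _ _ => hm) (by simp [hX])).2 (Or.inr (Or.inl (by
        simp only [Finset.sum_singleton, one_mul]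
        rw [Nat.abs_cast]
        exact_mod_cast hF)))
    simpa using h
  · intro F _ _ hF h2F X Y hX hY τ m m' hm hm'
    let G : Bool → Type := fun b => match b with
      | true => ℚ
      | false => F
    letI iG : ∀ b, Field (G b) := fun b => match b with
      | true => inferInstanceAs (Field ℚ)
      | false => inferInstanceAs (Field F)
    haveI iN : ∀ b, NumberField (G b) := fun b => match b with
      | true => inferInstanceAs (NumberField ℚ)
      | false => inferInstanceAs (NumberField F)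
    let Z : ∀ b, TwistOver W (G b) := fun b => match b with
      | true => Y
      | false => X
    let c : Bool → ℤ := fun b => match b with
      | true => -1
      | false => 1
    let mm : Bool → ℤ := fun b => match b with
      | true => m'
      | false => m
    have hd : ∀ b, (((Z b).d : 𝓞 (G b)) : G b) = 1 := by
      intro b
      cases b
      · change ((X.d : 𝓞 F) : F) = 1
        rw [hX]
        exact map_one (algebraMap (𝓞 F) F)
      · change ((Y.d : 𝓞 ℚ) : ℚ) = 1
        rw [hY]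
        exact map_one (algebraMap (𝓞 ℚ) ℚ)
    have hp : ∀ b b', pair (Z b) (Z b') = Pool.Agent.W353.TP.inum ℚ (G b) (G b') 1 1 := by
      intro b b'
      unfold pair Pool.Agent.W353.TP.inum
      rw [hd, hd]
    have hT : Module.finrank ℚ (G true) = 1 := Module.finrank_self ℚ
    obtain ⟨q1, q2, q3⟩ := Pool.Agent.TH553.RS.pair_rat (G false) (G true) hT
    have q4 : Pool.Agent.W353.TP.inum ℚ (G false) (G false) 1 1 = 2 := by
      rw [Pool.Agent.TH553.RS.inum_one]
      exact h2F
    have h := (h2 Bool Finset.univ G Z τ mm c (fun b _ => by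
      cases b
      · exact hm
      · exact hm') (by
      simp only [Fintype.sum_bool, hp, q1, q2, q3, q4, c]
      norm_num)).2 (Or.inr (Or.inl (by
      have e : ∑ b, c b * (Module.finrank ℚ (G b) : ℤ) = (Module.finrank ℚ F : ℤ) - 1 := by
        rw [Fintype.sum_bool, hT]
        change (-1 : ℤ) * ((1 : ℕ) : ℤ) + 1 * (Module.finrank ℚ F : ℤ) = _
        push_cast
        ring
      rw [e]
      refine le_trans ?_ (le_abs_self _)
      omega)))
    rw [Fintype.sum_bool] at h
    have h' : (-1 : ℤ) * m' + 1 * m = 0 := h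
    omega

end Pool.Agent.Results.MP_7ed9c3_nt.RankinSelbergEdge
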