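import Pool.Agent.TH322.BC.Main

/-!
# All quadratic twists of an elliptic curve over extensions with symmetric Galois group

`K` is any number field, for instance `ℚ`, and `E` any elliptic curve over `K`.  Let `F/K` be an
extension of degree `n ≥ 3` whose normal closure has the Galois group `S_n`, and for `D ∈ F^*` let
`E_D / F` be the twist of `E` over `F` by the quadratic character of `F(√D)/F`.  The analytic
continuation of `L(E_D / F, s)` is not known in general, not even for `K = ℚ` and `D = 1`, because `F/ℚ` is
not solvable for `n ≥ 5`.  The theorem is about the zeros and the poles of these functions on the line
`Re s = 3/2`, the edge of the half plane of absolute convergence.  Nothing is assumed about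
modularity, and a continuation is assumed only for the functions that are compared, and only near the
point in question.  The definitions are in `Pool.Agent.TH322.BC.Defs` and `Pool.Agent.W353.EF.Defs`.
-/

set_option autoImplicit false

namespace Pool.Agent.Results.MP_7ed9c3_nt.SymmetricTwists

open Pool.Agent.TH322.BC.Edge

/-- **The quadratic twists of `E` over extensions with symmetric Galois group, on the line
`Re s = 3/2`.**  Let `E` be an elliptic curve over a number field `K` and `F/K` an extension of degree
`n ≥ 3` such that all permutations of the embeddings of `F` over `K` are given by the Galois group.
Let `τ ≠ 0` be real and `D ∈ F^*`.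
1. `L(E/F, s)` and `L(E/K, s)` have the same order at `3/2 + iτ`, if both have a continuation.
2. If the product of two conjugates of `D` over `K` is not a square in the normal closure of `F/K`,
then the order of `L(E_D/F, s)` at `3/2 + iτ` is zero, if there is a continuation.
3. If `n` is odd, then for every `D` either the conclusion of 2 holds for all `τ ≠ 0`, or `D ∈ e F^{*2}`
with `e ∈ K^*`, and then `L(E_D/F, s)` and `L(E_e/K, s)` have the same order at all `3/2 + iτ`, `τ ≠ 0`.
At the point `3/2` the orders in 1 differ by at most one and the order in 2 is at most one in absolute
value.  Without any continuation, `log |L(3/2 + iτ + ε)| / log(1/ε)`, or the difference of two such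
quotients, is asymptotically at most `3/π < 1` in absolute value, and at most `3/2` if `τ = 0`. -/
theorem result (K : Type) [Field K] [NumberField K] (E : WeierstrassCurve K) (hE : E.IsElliptic) :
    SymmetricBaseChange E ∧ SymmetricTwists E ∧ OddDegree E :=
  main_symmetric K E hE

end Pool.Agent.Results.MP_7ed9c3_nt.SymmetricTwists
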